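import Pool.Agent.helper17.RX.Spec

/-!
# Row RLB of project RX (MP_f42afa_pr)
-/

set_option autoImplicit false

namespace TP.TW

open DP MeasureTheory Finset

theorem RLB_prob : IsProbabilityMeasure P1 := by
  unfold P1
  infer_instance

theorem RLB_phi_inj {n : ℕ} : Function.Injective (phi (n := n)) := by
  intro p q h
  simp only [phi, Prod.mk.injEq] at h
  obtain ⟨h1, h2⟩ := h
  ext <;> omega

theorem RLB_phi_br {n : ℕ} (p : Fin n × Fin n) : br (phi p) = phi p := by
  apply br_of_even
  simp only [phi]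
  omega

theorem RLB_phi_rh {n : ℕ} (p : Fin n × Fin n) : phi p ∈ rh ((n : ℤ) - 1) := by
  have h1 := p.1.2
  have h2 := p.2.2
  simp only [rh, phi, Set.mem_setOf_eq]
  omega

theorem RLB_rel (rea : REA_stmt) (reb : REB_stmt) (br1 : BR1_stmt) {n : ℕ} (hn : 1 ≤ n)
    (A : Finset (Fin n × Fin n)) (β : V → Bool) (p : Fin n × Fin n) (hp : p ∉ A)
    (hb : ¬ BAD (col β) (A.image phi) (phi p)) :
    ∃ y y' : Fin n × Fin n → Bool, (∀ q ∈ A, y q = β (phi q)) ∧ (∀ q, q ≠ p → y' q = y q) ∧
      Crossing n y ∧ ¬ Crossing n y' := by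
  have hpS : phi p ∉ A.image phi := fun h => by
    obtain ⟨q, hq, h⟩ := Finset.mem_image.mp h
    exact hp (RLB_phi_inj h ▸ hq)
  have h0 : (0 : ℤ) ≤ (n : ℤ) - 1 := by omega
  refine ⟨fun q => fil β (A.image phi) (phi p) true (phi q),
    fun q => fil β (A.image phi) (phi p) false (phi q), ?_, ?_, ?_, ?_⟩
  · intro q hq
    simp only [fil, if_pos (Finset.mem_image_of_mem phi hq)]
  · intro q hq
    have : phi q ≠ phi p := fun h => hq (RLB_phi_inj h)
    simp only [fil, if_neg this]
  · exact (br1 n _ hn).mpr (rea β _ _ _ h0 (RLB_phi_rh p) (RLB_phi_br p) hpS hb)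
  · exact fun h => reb β _ _ _ h0 (RLB_phi_rh p) (RLB_phi_br p) hpS hb ((br1 n _ hn).mp h)

theorem RLB_point (rea : REA_stmt) (reb : REB_stmt) (br1 : BR1_stmt) {n R : ℕ} (hn : 1 ≤ n) (hR : 1 ≤ R)
    (b : ℕ → (Fin n × Fin n → Bool) → Finset (Fin n × Fin n)) (hb : Adb b)
    (hd : ∀ x y : Fin n × Fin n → Bool, (∀ i < R, ∀ p ∈ b i x, x p = y p) → (Crossing n x ↔ Crossing n y))
    (β : V → Bool) (p : Fin n × Fin n) (hp : p ∉ (range R).biUnion fun i => b i fun q => β (phi q)) :
    BAD (col β) (lb b R β) (phi p) := by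
  by_contra hbad
  have hp' : ∀ i < R, p ∉ b i fun q => β (phi q) := fun i hi h =>
    hp (Finset.mem_biUnion.mpr ⟨i, Finset.mem_range.mpr hi, h⟩)
  have hpA : p ∉ (range (R - 1)).biUnion fun l => b l fun q => β (phi q) := by
    intro h
    obtain ⟨i, hi, h⟩ := Finset.mem_biUnion.mp h
    have := Finset.mem_range.mp hi
    exact hp' i (by omega) h
  obtain ⟨y, y', hy, hy', hc, hc'⟩ := RLB_rel rea reb br1 hn _ β p hpA hbad
  have hyb : ∀ j < R, b j (fun q => β (phi q)) = b j y := by
    intro j hj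
    apply hb j
    intro i hi q hq
    exact (hy q (Finset.mem_biUnion.mpr ⟨i, Finset.mem_range.mpr (by omega), hq⟩)).symm
  apply hc'
  refine (hd y y' ?_).mp hc
  intro i hi q hq
  rw [← hyb i hi] at hq
  have hqp : q ≠ p := fun h => hp' i hi (h ▸ hq)
  exact (hy' q hqp).symm

theorem RLB (rea : REA_stmt) (reb : REB_stmt) (br1 : BR1_stmt) (br2 : BR2_stmt) : RLB_stmt := by
  intro n R hn hR b hb hd
  classical
  have := RLB_prob
  -- each site
  have key : ∀ p : Fin n × Fin n,
      1 ≤ (#{x : Fin n × Fin n → Bool | p ∈ (range R).biUnion fun i => b i x} : ℝ) / 2 ^ (n * n) +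
        Pr {β : V → Bool | BAD (col β) (lb b R β) (phi p)} := by
    intro p
    have e := br2 n (fun x => p ∈ (range R).biUnion fun i => b i x)
    have hsub : (Set.univ : Set (V → Bool)) ⊆
        {β : V → Bool | p ∈ (range R).biUnion fun i => b i fun q => β (phi q)} ∪
          {β : V → Bool | BAD (col β) (lb b R β) (phi p)} := by
      intro β _
      by_cases hp : p ∈ (range R).biUnion fun i => b i fun q => β (phi q)
      · exact Or.inl hp
      · exact Or.inr (RLB_point rea reb br1 (by omega) hR b hb hd β p hp)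
    have h1 : (1 : ℝ) = P1.real Set.univ := by simp
    have h2 : P1.real Set.univ ≤ P1.real
        ({β : V → Bool | p ∈ (range R).biUnion fun i => b i fun q => β (phi q)} ∪
          {β : V → Bool | BAD (col β) (lb b R β) (phi p)}) := measureReal_mono hsub
    have h3 := measureReal_union_le (μ := P1)
      {β : V → Bool | p ∈ (range R).biUnion fun i => b i fun q => β (phi q)}
      {β : V → Bool | BAD (col β) (lb b R β) (phi p)}
    have h4 : Pr {β : V → Bool | p ∈ (range R).biUnion fun i => b i fun q => β (phi q)} =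
      P1.real {β : V → Bool | p ∈ (range R).biUnion fun i => b i fun q => β (phi q)} := rfl
    have h5 : Pr {β : V → Bool | BAD (col β) (lb b R β) (phi p)} =
      P1.real {β : V → Bool | BAD (col β) (lb b R β) (phi p)} := rfl
    have e' : (#{x : Fin n × Fin n → Bool | p ∈ (range R).biUnion fun i => b i x} : ℝ) / 2 ^ (n * n) =
        Pr {β : V → Bool | p ∈ (range R).biUnion fun i => b i fun q => β (phi q)} := by
      rw [e]
      refine congrArg (fun k : ℕ => (k : ℝ) / 2 ^ (n * n)) (congrArg Finset.card ?_)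
      ext x
      simp only [Finset.mem_filter]
    rw [e', h4, h5]
    linarith
  have hsum := Finset.sum_le_sum fun p (_ : p ∈ (Finset.univ : Finset (Fin n × Fin n))) => key p
  rw [Finset.sum_add_distrib, ← Finset.sum_div] at hsum
  have hl : (∑ _p : Fin n × Fin n, (1 : ℝ)) = (n : ℝ) ^ 2 := by
    simp [Fintype.card_prod, sq]
  have hex : (∑ p : Fin n × Fin n,
      (#{x : Fin n × Fin n → Bool | p ∈ (range R).biUnion fun i => b i x} : ℝ)) =
      ∑ x : Fin n × Fin n → Bool, (#((range R).biUnion fun i => b i x) : ℝ) := by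
    have h : ∀ x : Fin n × Fin n → Bool, (#((range R).biUnion fun i => b i x) : ℝ) =
        ∑ p : Fin n × Fin n, if p ∈ (range R).biUnion fun i => b i x then (1 : ℝ) else 0 := by
      intro x
      rw [Finset.sum_boole, Finset.filter_univ_mem]
    simp only [h, Finset.card_filter, Nat.cast_sum, Nat.cast_ite, Nat.cast_one, Nat.cast_zero]
    rw [Finset.sum_comm]
  have him : ∑ p : Fin n × Fin n, Pr {β : V → Bool | BAD (col β) (lb b R β) (phi p)} =
      ∑ v₀ ∈ (Finset.univ : Finset (Fin n × Fin n)).image phi,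
        Pr {β : V → Bool | BAD (col β) (lb b R β) v₀} := by
    rw [Finset.sum_image fun p _ q _ h => RLB_phi_inj h]
  rw [hl, hex, him] at hsum
  exact hsum

end TP.TW
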